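import Pool.Agent.Helper13.HTD.Defs
import Pool.Agent.Helper28.CS3.Main
import Pool.Agent.Helper28.CS3.Len2
import Pool.Agent.Helper28.CS3.Orth

/-!
The definitions of `HTD.Defs`, and those of the proofs.
-/

namespace Pool.Agent.Helper13.HTD

open MvPolynomial

section poly

variable {ι M N : Type} [Fintype ι] [AddCommGroup M] [Module ℚ M] [AddCommGroup N] [Module ℚ N]
  {P : RootPairing ι ℚ M N} (b : P.Base)
  {I : Type} [Fintype I] [DecidableEq I] (e : I ≃ b.support) {A : I → I → ℚ}

/-- renaming of the variables -/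
noncomputable def ren : MvPolynomial I ℚ ≃ₐ[ℚ] H28T.Pol b := renameEquiv ℚ e

lemma ren_X (j : I) : ren b e (X j) = X (e j) := by
  simp [ren, renameEquiv]

lemma ren_C (a : ℚ) : ren b e (C a) = C a := by
  simp [ren, renameEquiv]

lemma ren_root (hA : ∀ i j, A i j = P.pairing (e i) (e j)) (i : I) :
    ren b e (∑ j, C (A i j) * X j) = H28T.rt b (e i) := by
  rw [map_sum]
  unfold H28T.rt H28T.lin H28T.rc
  rw [← Equiv.sum_comp e]
  refine Finset.sum_congr rfl fun j _ => ?_
  rw [map_mul, ren_C, ren_X, hA]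

lemma ren_act (hA : ∀ i j, A i j = P.pairing (e i) (e j)) (i : I) (f : MvPolynomial I ℚ) :
    ren b e (act A i f) = H28T.sact b (e i) (ren b e f) := by
  have h : ((ren b e : MvPolynomial I ℚ ≃ₐ[ℚ] H28T.Pol b) : MvPolynomial I ℚ →ₐ[ℚ] H28T.Pol b).comp
      (bind₁ (Function.update X i (X i - ∑ j, C (A i j) * X j))) =
      (H28T.sact b (e i)).comp
        ((ren b e : MvPolynomial I ℚ ≃ₐ[ℚ] H28T.Pol b) : MvPolynomial I ℚ →ₐ[ℚ] H28T.Pol b) := by
    refine MvPolynomial.algHom_ext fun j => ?_
    rw [AlgHom.comp_apply, AlgHom.comp_apply, bind₁_X_right]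
    show ren b e _ = H28T.sact b (e i) (ren b e (X j))
    rw [ren_X]
    by_cases hj : j = i
    · subst hj
      rw [Function.update_self, map_sub, ren_root b e hA, ren_X]
      simp [H28T.sact]
    · rw [Function.update_of_ne hj, ren_X]
      have h2 : e j ≠ e i := fun h => hj (e.injective h)
      simp [H28T.sact, h2]
  exact DFunLike.congr_fun h f

lemma ren_isDiff (hA : ∀ i j, A i j = P.pairing (e i) (e j)) (i : I) (f g : MvPolynomial I ℚ) :
    IsDiff A i f g ↔ H28T.dd1 b (e i) (ren b e f) = ren b e g := by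
  unfold IsDiff
  rw [← (ren b e).injective.eq_iff, map_mul, map_sub, ren_root b e hA, ren_act b e hA]
  constructor
  · intro h
    exact H28T.dd1_unique (e i) _ _ h
  · intro h
    rw [← h]
    exact H28T.dd1_spec b (e i) _

lemma ren_cc (f : MvPolynomial I ℚ) : constantCoeff (ren b e f) = constantCoeff f := by
  simp [ren, renameEquiv]

lemma ren_ker (hA : ∀ i j, A i j = P.pairing (e i) (e j)) {H : Type} [CommRing H]
    {π : MvPolynomial I ℚ →+* H} (hπ : IsBorel A π) (p : H28T.Pol b) :
    π ((ren b e).symm p) = 0 ↔ p ∈ H28T.invIdeal b := by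
  rw [hπ.2]
  constructor
  · intro h
    have h1 : Ideal.span {p : MvPolynomial I ℚ | (∀ i, act A i p = p) ∧ constantCoeff p = 0} ≤
        Ideal.comap (ren b e) (H28T.invIdeal b) := by
      refine Ideal.span_le.mpr fun x hx => ?_
      refine Ideal.subset_span ⟨fun i => ?_, ?_⟩
      · obtain ⟨i, rfl⟩ := e.surjective i
        have h2 := congrArg (ren b e) (hx.1 i)
        rwa [ren_act b e hA] at h2
      · exact (ren_cc b e x).trans hx.2
    have h3 := h1 h
    rw [Ideal.mem_comap, AlgEquiv.apply_symm_apply] at h3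
    exact h3
  · intro h
    have h1 : H28T.invIdeal b ≤ Ideal.comap (ren b e).symm
        (Ideal.span {p : MvPolynomial I ℚ | (∀ i, act A i p = p) ∧ constantCoeff p = 0}) := by
      refine Ideal.span_le.mpr fun x hx => ?_
      refine Ideal.subset_span ⟨fun i => ?_, ?_⟩
      · apply (ren b e).injective
        rw [ren_act b e hA]
        show H28T.sact b (e i) ((ren b e) ((ren b e).symm x)) = (ren b e) ((ren b e).symm x)
        rw [AlgEquiv.apply_symm_apply]
        exact hx.1 (e i)
      · show constantCoeff ((ren b e).symm x) = 0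
        rw [← ren_cc b e, AlgEquiv.apply_symm_apply]
        exact hx.2
    exact h1 h

/-- the projection, on the renamed polynomials -/
noncomputable def renπ {H : Type} [CommRing H] (π : MvPolynomial I ℚ →+* H) : H28T.Pol b →+* H :=
  π.comp ((ren b e).symm : H28T.Pol b →+* MvPolynomial I ℚ)

/-- the isomorphism with the quotient ring -/
noncomputable def borelEquiv (hA : ∀ i j, A i j = P.pairing (e i) (e j)) {H : Type} [CommRing H]
    {π : MvPolynomial I ℚ →+* H} (hπ : IsBorel A π) : H28T.Coh b ≃+* H :=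
  (Ideal.quotEquivOfEq (show H28T.invIdeal b = RingHom.ker (renπ b e π) from
    Ideal.ext fun p => (ren_ker b e hA hπ p).symm)).trans
  (RingHom.quotientKerEquivOfSurjective (f := renπ b e π)
    (hπ.1.comp (ren b e).symm.surjective))

lemma borelEquiv_cl (hA : ∀ i j, A i j = P.pairing (e i) (e j)) {H : Type} [CommRing H]
    {π : MvPolynomial I ℚ →+* H} (hπ : IsBorel A π) (f : MvPolynomial I ℚ) :
    borelEquiv b e hA hπ (H28T.cl b (ren b e f)) = π f := by
  show π ((ren b e).symm (ren b e f)) = π f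
  rw [AlgEquiv.symm_apply_apply]

end poly

section weyl

variable {ι M N : Type} [Fintype ι] [AddCommGroup M] [Module ℚ M] [AddCommGroup N] [Module ℚ N]
  {P : RootPairing ι ℚ M N} (b : P.Base) [P.IsRootSystem] [P.IsCrystallographic] [P.IsReduced]
  {I : Type} [Fintype I] [DecidableEq I] (e : I ≃ b.support) {A : I → I → ℚ}
  {W : Type} [Group W] (φ : W →* Equiv.Perm ι) (s : I → W)

/-- `W` is the Weyl group -/
structure IsWeyl : Prop where
  inj : Function.Injective φ
  refl : ∀ i, φ (s i) = P.reflectionPerm (e i)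
  gen : Subgroup.closure (Set.range s) = ⊤

variable {φ s}

lemma prod_wp (h : IsWeyl b e φ s) (l : List I) :
    φ ((l.map s).prod) = (H28T.wp b (l.map e).reverse).1 := by
  induction l with
  | nil => exact map_one φ
  | cons k l ih =>
    rw [List.map_cons, List.prod_cons, map_mul, ih, List.map_cons, List.reverse_cons,
      H28T.wp_append, h.refl]
    show _ = ((1 * H28T.rf P (e k)) * _ : H28T.WG P).1
    rw [one_mul]
    rfl

lemma mem_WG (h : IsWeyl b e φ s) (w : W) : φ w ∈ H28T.WG P := by
  have h1 : Subgroup.closure (Set.range s) ≤ (H28T.WG P).comap φ := by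
    rw [Subgroup.closure_le]
    rintro _ ⟨i, rfl⟩
    show φ (s i) ∈ H28T.WG P
    rw [h.refl]
    exact Subgroup.subset_closure ⟨_, rfl⟩
  have h2 := h.gen ▸ h1
  exact h2 (Subgroup.mem_top w)

lemma map_symm_map (l : List b.support) : (l.map e.symm).map e = l := by
  rw [List.map_map]
  simp

/-- the isomorphism with the Weyl group -/
noncomputable def weyl (h : IsWeyl b e φ s) : W ≃* H28T.WG P :=
  MulEquiv.ofBijective (φ.codRestrict (H28T.WG P) (mem_WG b e h)) ⟨fun x y hxy => by
    apply h.inj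
    exact congrArg Subtype.val hxy, fun x => by
    obtain ⟨l, hl⟩ := H28T.exists_word0 b x
    refine ⟨((l.reverse.map e.symm).map s).prod, Subtype.ext ?_⟩
    show φ _ = _
    rw [prod_wp b e h, map_symm_map, List.reverse_reverse, hl]⟩

lemma weyl_prod (h : IsWeyl b e φ s) (l : List I) :
    weyl b e h ((l.map s).prod) = H28T.wp b (l.map e).reverse :=
  Subtype.ext (prod_wp b e h l)

lemma weyl_s (h : IsWeyl b e φ s) (i : I) : weyl b e h (s i) = H28T.rf P (e i) :=
  Subtype.ext (h.refl i)

lemma exists_red (h : IsWeyl b e φ s) (v : W) :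
    ∃ l : List I, (l.map s).prod = v ∧ l.length = H28T.inv b (weyl b e h v) := by
  obtain ⟨l, hl, hl'⟩ := H28T.exists_word b (weyl b e h v)
  refine ⟨l.reverse.map e.symm, ?_, ?_⟩
  · apply (weyl b e h).injective
    rw [weyl_prod, map_symm_map, List.reverse_reverse, hl]
  · rw [List.length_map, List.length_reverse, hl']

lemma inv_le (h : IsWeyl b e φ s) {v : W} {l : List I} (hl : (l.map s).prod = v) :
    H28T.inv b (weyl b e h v) ≤ l.length := by
  have h1 := H28T.inv_wp_le b (l.map e).reverse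
  rw [← weyl_prod b e h, hl, List.length_reverse, List.length_map] at h1
  exact h1

lemma red_iff (h : IsWeyl b e φ s) (v : W) (l : List I) :
    Red s v l ↔ (l.map s).prod = v ∧ l.length = H28T.inv b (weyl b e h v) := by
  constructor
  · rintro ⟨h1, h2⟩
    obtain ⟨l', hl', hl''⟩ := exists_red b e h v
    exact ⟨h1, le_antisymm (hl'' ▸ h2 l' hl') (inv_le b e h h1)⟩
  · rintro ⟨h1, h2⟩
    exact ⟨h1, fun l' hl' => h2 ▸ inv_le b e h hl'⟩

lemma red_iff' (h : IsWeyl b e φ s) (v : W) (l : List I) :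
    Red s v l ↔ (H28T.wp b (l.map e).reverse = weyl b e h v ∧
      (l.map e).reverse.length = H28T.inv b (weyl b e h v)) := by
  rw [red_iff b e h, ← weyl_prod b e h, (weyl b e h).injective.eq_iff, List.length_reverse,
    List.length_map]

lemma long_iff (h : IsWeyl b e φ s) (w : W) :
    (∀ v l l', Red s w l → Red s v l' → l'.length ≤ l.length) ↔ H28T.IsLong b (weyl b e h w) := by
  obtain ⟨w₀, hw₀⟩ := H28T.exists_isLong b
  constructor
  · intro h1
    refine H28T.isLong_of_le b _ w₀ hw₀ ?_
    obtain ⟨l, hl⟩ := exists_red b e h w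
    obtain ⟨l', hl'⟩ := exists_red b e h ((weyl b e h).symm w₀)
    have h2 := h1 _ l l' ((red_iff b e h _ _).mpr hl) ((red_iff b e h _ _).mpr hl')
    rwa [hl.2, hl'.2, MulEquiv.apply_symm_apply] at h2
  · intro h1 v l l' hl hl'
    rw [red_iff b e h] at hl hl'
    rw [hl.2, hl'.2]
    have h2 := H28T.inv_mul_isLong b (weyl b e h v) _ h1
    omega

lemma dd_append (l l' : List b.support) (f : H28T.Pol b) :
    H28T.dd b (l ++ l') f = H28T.dd b l' (H28T.dd b l f) := by
  induction l generalizing f with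
  | nil => rfl
  | cons k l ih => exact ih _

lemma isSchub_conv (hA : ∀ i j, A i j = P.pairing (e i) (e j)) (h : IsWeyl b e φ s) (v : W)
    (F : MvPolynomial I ℚ) :
    IsSchub A s v F ↔ H28T.IsSchub b (weyl b e h v) (ren b e F) := by
  constructor
  · rintro ⟨D, h1, h2, h3⟩ l
    have h4 : ∀ l, ren b e (D l) = H28T.dd b (l.map e).reverse (ren b e F) := by
      intro l
      induction l with
      | nil => exact congrArg _ h1
      | cons k l ih =>
        rw [List.map_cons, List.reverse_cons, dd_append, ← ih]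
        exact ((ren_isDiff b e hA k _ _).mp (h2 k l)).symm
    have h5 := h3 (l.reverse.map e.symm)
    rw [red_iff' b e h, map_symm_map, ← ren_cc b e, h4, map_symm_map, List.reverse_reverse] at h5
    split_ifs with h6
    · exact h5.1 h6
    · exact h5.2 h6
  · intro h0
    refine ⟨fun l => (ren b e).symm (H28T.dd b (l.map e).reverse (ren b e F)), ?_,
      fun i l => ?_, fun l => ?_⟩
    · show (ren b e).symm (ren b e F) = F
      rw [AlgEquiv.symm_apply_apply]
    · rw [ren_isDiff b e hA, AlgEquiv.apply_symm_apply, AlgEquiv.apply_symm_apply, List.map_cons,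
        List.reverse_cons, dd_append]
      rfl
    · have h1 := h0 (l.map e).reverse
      rw [red_iff' b e h, ← ren_cc b e, AlgEquiv.apply_symm_apply]
      constructor
      · intro h2
        rw [h1, if_pos h2]
      · intro h2
        rw [h1, if_neg h2]

variable {H : Type} [CommRing H] {π : MvPolynomial I ℚ →+* H}

lemma isCSM_conv (hA : ∀ i j, A i j = P.pairing (e i) (e j)) (h : IsWeyl b e φ s)
    (hπ : IsBorel A π) (K : W → H) :
    IsCSM A s π K ↔
      H28T.IsCSM b (fun w => (borelEquiv b e hA hπ).symm (K ((weyl b e h).symm w))) := by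
  have hcl : ∀ (w : W) (f : MvPolynomial I ℚ), K w = π f ↔
      (borelEquiv b e hA hπ).symm (K w) = H28T.cl b (ren b e f) := by
    intro w f
    rw [RingEquiv.symm_apply_eq, borelEquiv_cl]
  constructor
  · rintro ⟨h1, h2⟩
    refine ⟨fun w hw => ?_, fun w i f hw => ?_⟩
    · obtain ⟨w, rfl⟩ := (weyl b e h).surjective w
      obtain ⟨F, hF, hF'⟩ := h1 w ((long_iff b e h w).mpr hw)
      refine ⟨ren b e F, (isSchub_conv b e hA h w F).mp hF, ?_⟩
      show (borelEquiv b e hA hπ).symm (K ((weyl b e h).symm (weyl b e h w))) = _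
      rw [MulEquiv.symm_apply_apply]
      exact (hcl w F).mp hF'
    · obtain ⟨w, rfl⟩ := (weyl b e h).surjective w
      obtain ⟨i, rfl⟩ := e.surjective i
      obtain ⟨f, rfl⟩ := (ren b e).surjective f
      have hw' : (borelEquiv b e hA hπ).symm (K ((weyl b e h).symm (weyl b e h w))) = _ := hw
      rw [MulEquiv.symm_apply_apply, ← hcl] at hw'
      obtain ⟨g, hg⟩ := (ren b e).surjective (H28T.dd1 b (e i) (ren b e f))
      have h3 := h2 w i f g ((ren_isDiff b e hA i f g).mpr hg.symm) hw'
      show (borelEquiv b e hA hπ).symm (K ((weyl b e h).symm (weyl b e h w * H28T.rf P (e i)))) = _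
      rw [← weyl_s b e h, ← map_mul, MulEquiv.symm_apply_apply, (hcl _ _).mp h3, map_sub, hg,
        ren_act b e hA]
      rfl
  · intro h0
    refine ⟨fun w hw => ?_, fun w i f g hg hw => ?_⟩
    · obtain ⟨F, hF, hF'⟩ := h0.pt (weyl b e h w) ((long_iff b e h w).mp hw)
      obtain ⟨F, rfl⟩ := (ren b e).surjective F
      refine ⟨F, (isSchub_conv b e hA h w F).mpr hF, (hcl w F).mpr ?_⟩
      rwa [MulEquiv.symm_apply_apply] at hF'
    · have h3 := h0.step (weyl b e h w) (e i) (ren b e f) (by
        rw [MulEquiv.symm_apply_apply]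
        exact (hcl w f).mp hw)
      rw [← weyl_s b e h, ← map_mul, MulEquiv.symm_apply_apply] at h3
      refine (hcl _ _).mpr (h3.trans ?_)
      unfold H28T.TT
      rw [(ren_isDiff b e hA i f g).mp hg, map_sub, ren_act b e hA]

lemma sum_conv [Fintype W] [Fintype (H28T.WG P)] (hA : ∀ i j, A i j = P.pairing (e i) (e j))
    (h : IsWeyl b e φ s) (hπ : IsBorel A π) (K : W → H) (a : W → ℚ) :
    (borelEquiv b e hA hπ).symm (∑ w, π (C (a w)) * K w) =
      ∑ w : H28T.WG P, a ((weyl b e h).symm w) •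
        (borelEquiv b e hA hπ).symm (K ((weyl b e h).symm w)) := by
  rw [map_sum]
  refine Fintype.sum_equiv (weyl b e h).toEquiv _ _ fun w => ?_
  have h1 : (weyl b e h).symm ((weyl b e h).toEquiv w) = w := MulEquiv.symm_apply_apply _ w
  rw [h1, map_mul]
  have h2 : (borelEquiv b e hA hπ).symm (π (C (a w))) = H28T.cl b (C (a w)) := by
    rw [RingEquiv.symm_apply_eq]
    have h3 := borelEquiv_cl b e hA hπ (C (a w))
    rw [ren_C] at h3
    exact h3.symm
  obtain ⟨F, hF⟩ := Ideal.Quotient.mk_surjective ((borelEquiv b e hA hπ).symm (K w))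
  rw [h2, ← hF]
  show H28T.cl b (C (a w)) * H28T.cl b F = H28T.cl b (a w • F)
  rw [MvPolynomial.smul_eq_C_mul]
  exact (map_mul (Ideal.Quotient.mk (H28T.invIdeal b)) (C (a w)) F).symm

lemma csmPos_conv [Fintype W] [Fintype (H28T.WG P)] (hA : ∀ i j, A i j = P.pairing (e i) (e j))
    (h : IsWeyl b e φ s) (hπ : IsBorel A π) (K : W → H) (v : W) :
    CSMPos A s π K v ↔ H28T.CSMPos b
      (fun w => (borelEquiv b e hA hπ).symm (K ((weyl b e h).symm w))) (weyl b e h v) := by
  have key : ∀ (F : MvPolynomial I ℚ) (u : W) (a : W → ℚ), π F * K u = ∑ w, π (C (a w)) * K w ↔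
      H28T.cl b (ren b e F) * (borelEquiv b e hA hπ).symm (K u) =
      ∑ w : H28T.WG P, a ((weyl b e h).symm w) •
        (borelEquiv b e hA hπ).symm (K ((weyl b e h).symm w)) := by
    intro F u a
    rw [← sum_conv b e hA h hπ K a, ← (borelEquiv b e hA hπ).symm.injective.eq_iff, map_mul,
      ← borelEquiv_cl b e hA hπ, RingEquiv.symm_apply_apply]
  constructor
  · rintro ⟨⟨F, hF⟩, h2⟩
    refine ⟨⟨_, (isSchub_conv b e hA h v F).mp hF⟩, fun G hG u => ?_⟩
    obtain ⟨G, rfl⟩ := (ren b e).surjective G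
    obtain ⟨a, ha, h3⟩ := h2 G ((isSchub_conv b e hA h v G).mpr hG) ((weyl b e h).symm u)
    exact ⟨fun w => a ((weyl b e h).symm w), fun w => ha _, (key _ _ _).mp h3⟩
  · rintro ⟨⟨F, hF⟩, h2⟩
    obtain ⟨F, rfl⟩ := (ren b e).surjective F
    refine ⟨⟨F, (isSchub_conv b e hA h v F).mpr hF⟩, fun G hG u => ?_⟩
    obtain ⟨a, ha, h3⟩ := h2 _ ((isSchub_conv b e hA h v G).mp hG) (weyl b e h u)
    refine ⟨fun w => a (weyl b e h w), fun w => ha _, (key _ _ _).mpr ?_⟩
    simp only [MulEquiv.symm_apply_apply, MulEquiv.apply_symm_apply] at h3 ⊢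
    exact h3

end weyl

end Pool.Agent.Helper13.HTD
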