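import Mathlib

/-!
# CSM classes and Schubert classes in all types: definitions

`I` is the set of nodes of the Dynkin diagram, `A i j = ⟨α_i, α_j^∨⟩` the Cartan matrix, `W` the Weyl
group with simple reflections `s i`. The polynomial ring in the fundamental weights `X j = ω_j` is
`MvPolynomial I ℚ`; `H = H^*(G/B; ℚ)` is its quotient by the ideal generated by the invariants without
constant term (Borel), and `π` is the projection.
-/

namespace Pool.Agent.Helper13.HTD

open MvPolynomial

/-- The simple reflection `s_i` on polynomials: `ω_i ↦ ω_i - α_i`, where `α_i = Σ_j A i j ω_j`, and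
`ω_j ↦ ω_j` for `j ≠ i`. -/
noncomputable def act {I : Type} [Fintype I] [DecidableEq I] (A : I → I → ℚ) (i : I)
    (f : MvPolynomial I ℚ) : MvPolynomial I ℚ :=
  bind₁ (Function.update X i (X i - ∑ j, C (A i j) * X j)) f

/-- `g` is the divided difference `∂_i f = (f - s_i f) / α_i`. -/
def IsDiff {I : Type} [Fintype I] [DecidableEq I] (A : I → I → ℚ) (i : I)
    (f g : MvPolynomial I ℚ) : Prop :=
  (∑ j, C (A i j) * X j) * g = f - act A i f

/-- `π` presents `H` as the quotient of the polynomial ring by the ideal generated by the invariants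
without constant term. -/
def IsBorel {I H : Type} [Fintype I] [DecidableEq I] [CommRing H] (A : I → I → ℚ)
    (π : MvPolynomial I ℚ →+* H) : Prop :=
  Function.Surjective π ∧
    ∀ p, π p = 0 ↔ p ∈ Ideal.span {p | (∀ i, act A i p = p) ∧ constantCoeff p = 0}

/-- `l = [k_1, ..., k_r]` is a reduced word of `v`: `v = s_{k_1} ⋯ s_{k_r}`, and no word of `v` is
shorter. -/
def Red {I W : Type} [Group W] (s : I → W) (v : W) (l : List I) : Prop :=
  (l.map s).prod = v ∧ ∀ l' : List I, (l'.map s).prod = v → l.length ≤ l'.length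

/-- `F` represents the Schubert class `[Y(v)]`: for every word `l = [k_r, ..., k_1]`, the constant
term of `D l = ∂_{k_r} ⋯ ∂_{k_1} F` is `1` if `l` is a reduced word of `v`, and `0` otherwise. -/
def IsSchub {I W : Type} [Fintype I] [DecidableEq I] [Group W] (A : I → I → ℚ) (s : I → W) (v : W)
    (F : MvPolynomial I ℚ) : Prop :=
  ∃ D : List I → MvPolynomial I ℚ, D [] = F ∧ (∀ i l, IsDiff A i (D l) (D (i :: l))) ∧
    ∀ l, (Red s v l → constantCoeff (D l) = 1) ∧ (¬ Red s v l → constantCoeff (D l) = 0)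

/-- `K w = c_SM(Y(w)°)` for all `w`: for the longest element this is the class of a point, that is,
`[Y(w_0)]`, and `K(w s_i) = (∂_i - s_i) K(w)` (theorem of Aluffi and Mihalcea). -/
def IsCSM {I W H : Type} [Fintype I] [DecidableEq I] [Group W] [CommRing H] (A : I → I → ℚ)
    (s : I → W) (π : MvPolynomial I ℚ →+* H) (K : W → H) : Prop :=
  (∀ w, (∀ v l l', Red s w l → Red s v l' → l'.length ≤ l.length) →
    ∃ F, IsSchub A s w F ∧ K w = π F) ∧
  ∀ w i f g, IsDiff A i f g → K w = π f → K (w * s i) = π (g - act A i f)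

/-- The class `[Y(v)]` has a representative, and `[Y(v)] · K u` is, for all `u`, a nonnegative
combination of the classes `K w`. -/
def CSMPos {I W H : Type} [Fintype I] [DecidableEq I] [Group W] [Fintype W] [CommRing H]
    (A : I → I → ℚ) (s : I → W) (π : MvPolynomial I ℚ →+* H) (K : W → H) (v : W) : Prop :=
  (∃ F, IsSchub A s v F) ∧ ∀ F, IsSchub A s v F → ∀ u, ∃ a : W → ℚ, (∀ w, 0 ≤ a w) ∧
    π F * K u = ∑ w, π (C (a w)) * K w

/-- The walk `f 0, ..., f (k-1)` in the Dynkin diagram is straight: for the weights `μ 0 = ω_{f 0}`,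
`μ (t+1) = s_{f t} (μ t)` (in coordinates with respect to the fundamental weights) and `t < k`, the
weight `μ t` is positive on the simple coroot of `f t`, and it is zero on all other simple coroots,
except possibly on that of `f (t-1)`. -/
def Straight {I : Type} [DecidableEq I] (A : I → I → ℚ) (f : ℕ → I) (k : ℕ) : Prop :=
  ∃ μ : ℕ → I → ℚ, μ 0 = Pi.single (f 0) 1 ∧
    (∀ t j, μ (t + 1) j = μ t j - μ t (f t) * A (f t) j) ∧
    ∀ t < k, 0 < μ t (f t) ∧ ∀ j, j ≠ f t → (∀ s, s + 1 = t → j ≠ f s) → μ t j = 0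

/-- `f 0, ..., f (k-1)` is a path in the Dynkin diagram which starts at a leaf and is not joined to
the rest of the diagram except at `f (k-1)`, with simple bonds except possibly the last one. -/
structure LeafChain {I : Type} (A : I → I → ℚ) (f : ℕ → I) (k : ℕ) : Prop where
  inj : ∀ s < k, ∀ t < k, f s = f t → s = t
  bond : ∀ t, t + 1 < k → A (f t) (f (t + 1)) < 0
  simple : ∀ t, t + 2 < k → A (f t) (f (t + 1)) = -1 ∧ A (f (t + 1)) (f t) = -1
  far : ∀ t, t + 1 < k → ∀ j, j ≠ f t → j ≠ f (t + 1) → (∀ s, s + 1 = t → j ≠ f s) → A (f t) j = 0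

/-- The hook-shaped element
`(s_{f q} ⋯ s_{f(q+r-1)}) · (s_{f(q+r+a)} ⋯ s_{f(q+r+1)} s_{f(q+r)})`. -/
def hook {I W : Type} [Group W] (s : I → W) (f : ℕ → I) (q r a : ℕ) : W :=
  ((List.range r).map fun t => s (f (q + t))).prod *
    ((List.range (a + 1)).map fun t => s (f (q + r + t))).reverse.prod

end Pool.Agent.Helper13.HTD
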