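import Pool.Agent.Helper13.HTD.Conv

/-!
The theorem for the definitions of `HTD.Defs`.
-/

namespace Pool.Agent.Helper13.HTD

open MvPolynomial

variable {ι M N : Type} [Fintype ι] [AddCommGroup M] [Module ℚ M] [AddCommGroup N] [Module ℚ N]
  {P : RootPairing ι ℚ M N} (b : P.Base) [P.IsRootSystem] [P.IsCrystallographic] [P.IsReduced]
  {I : Type} [Fintype I] [DecidableEq I] (e : I ≃ b.support) {A : I → I → ℚ}
  {W : Type} [Group W] {φ : W →* Equiv.Perm ι} {s : I → W}

lemma reverse_map_range {α : Type} (r : ℕ) (g : ℕ → α) :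
    ((List.range r).map g).reverse = (List.range r).map fun t => g (r - 1 - t) := by
  refine List.ext_getElem (by simp) fun i h1 h2 => ?_
  simp only [List.length_reverse, List.length_map, List.length_range] at h1
  rw [List.getElem_reverse]
  simp

lemma weyl_hook (h : IsWeyl b e φ s) (f : ℕ → I) (q r a : ℕ) :
    weyl b e h (hook s f q r a) = H28T.wp b (H28T.hookL b (fun t => e (f t)) (q + r) a r) := by
  have h1 : ((List.range r).map fun t => s (f (q + t))) =
      (((List.range r).map fun t => f (q + t)).map s) := by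
    rw [List.map_map]
    rfl
  have h2 : ((List.range (a + 1)).map fun t => s (f (q + r + t))).reverse =
      ((((List.range (a + 1)).map fun t => f (q + r + t)).reverse).map s) := by
    rw [← List.map_reverse, ← List.map_reverse, List.map_map]
    rfl
  rw [hook, map_mul, h1, h2, weyl_prod, weyl_prod, List.map_reverse, List.reverse_reverse,
    H28T.hookL, H28T.wp_append]
  congr 2
  · rw [List.map_map, reverse_map_range]
    refine List.map_congr_left fun t ht => ?_
    rw [List.mem_range] at ht
    show e (f (q + (r - 1 - t))) = e (f (q + r - 1 - t))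
    congr 2
    omega
  · rw [List.map_map]
    rfl

lemma hookL_congr {f g : ℕ → b.support} {m a r : ℕ} (hr : r ≤ m) (h : ∀ t ≤ m + a, f t = g t) :
    H28T.hookL b f m a r = H28T.hookL b g m a r := by
  unfold H28T.hookL
  congr 1
  · refine List.map_congr_left fun t ht => h _ ?_
    rw [List.mem_range] at ht
    omega
  · refine List.map_congr_left fun t ht => h _ ?_
    rw [List.mem_range] at ht
    omega

lemma straight_conv (hA : ∀ i j, A i j = P.pairing (e i) (e j)) {f : ℕ → I} {k : ℕ}
    (hf : Straight A f k) : H28T.Straight b (fun t => e (f t)) k := by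
  obtain ⟨μ, h0, h1, h2⟩ := hf
  have h3 : ∀ t j, H28T.wt b (fun t => e (f t)) t (e j) = μ t j := by
    intro t
    induction t with
    | zero =>
      intro j
      rw [h0, Pi.single_apply]
      by_cases hj : j = f 0
      · rw [if_pos hj]
        exact if_pos (congrArg e hj)
      · rw [if_neg hj]
        exact if_neg fun h => hj (e.injective h)
    | succ t ih =>
      intro j
      show H28T.wt b (fun t => e (f t)) t (e j) - H28T.wt b (fun t => e (f t)) t (e (f t)) *
        P.pairing (e (f t)) (e j) = _
      rw [h1, ih, ih, hA]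
  intro t ht
  obtain ⟨h4, h5⟩ := h2 t ht
  refine ⟨by rw [h3]; exact h4, fun j hj hj' => ?_⟩
  obtain ⟨j, rfl⟩ := e.surjective j
  rw [h3]
  exact h5 j (fun h => hj (congrArg e h)) fun s hs h => hj' s hs (congrArg e h)

lemma leafChain_conv (hA : ∀ i j, A i j = P.pairing (e i) (e j)) {f : ℕ → I} {k : ℕ}
    (hf : LeafChain A f k) : H28T.LeafChain b (fun t => e (f t)) k := by
  refine ⟨fun s hs t ht h => hf.inj s hs t ht (e.injective h), fun t ht => ?_, fun t ht => ?_,
    fun t ht j h1 h2 h3 => ?_⟩
  · rw [← hA]
    exact hf.bond t ht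
  · rw [← hA, ← hA]
    exact hf.simple t ht
  · obtain ⟨j, rfl⟩ := e.surjective j
    rw [← hA]
    exact hf.far t ht j (fun h => h1 (congrArg e h)) (fun h => h2 (congrArg e h))
      fun s hs h => h3 s hs (congrArg e h)

theorem main [Fintype W] (hA : ∀ i j, A i j = P.pairing (e i) (e j)) (h : IsWeyl b e φ s)
    {H : Type} [CommRing H] {π : MvPolynomial I ℚ →+* H} (hπ : IsBorel A π) :
    (∃! K : W → H, IsCSM A s π K) ∧ ∀ K : W → H, IsCSM A s π K →
      (∀ a : W → ℚ, ∑ w, π (C (a w)) * K w = 0 → ∀ w, a w = 0) ∧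
      (∀ (f : ℕ → I) (q r a : ℕ), Straight A f (q + r + a + 1) →
        (∀ i ≤ q + r, ∀ j ≤ q + r, f i = f j → i = j) →
        (∀ i j, q ≤ i → i < q + r → q + r < j → j ≤ q + r + a → A (f j) (f i) = 0) →
        CSMPos A s π K (hook s f q r a)) ∧
      (∀ (f : ℕ → I) (q r a : ℕ), LeafChain A f (q + r + a + 1) →
        CSMPos A s π K (hook s f q r a)) ∧
      (∀ (n : ℕ) (ε : Fin n ≃ I) (f : ℕ → I),
        (∀ i j, A (ε i) (ε j) = CartanMatrix.B n i j) ∨
          (∀ i j, A (ε i) (ε j) = CartanMatrix.C n i j) →
        (∀ i : Fin n, f i = ε i ∧ f (2 * n - 2 - i) = ε i) →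
        ∀ q r a, q + r < n → q + r + a + 2 ≤ 2 * n → (r = 0 ∨ 2 * (q + r) + a + 3 ≤ 2 * n) →
          CSMPos A s π K (hook s f q r a)) ∧
      (∀ (n : ℕ) (ε : Fin n ≃ I) (f : ℕ → I), 3 ≤ n →
        (∀ i j, A (ε i) (ε j) = CartanMatrix.D n i j) →
        (∀ i : Fin n, f i = ε i ∧ (i + 3 ≤ n → f (2 * n - 3 - i) = ε i)) →
        (∀ m a, m + 3 ≤ n → n ≤ m + a + 1 → m + a + 3 ≤ 2 * n →
          CSMPos A s π K (hook s f m 0 a)) ∧
        ∀ r, r + 2 ≤ n → CSMPos A s π K
          (((List.range r).map fun t => s (f (n - 2 - r + t))).prod * s (f (n - 1)))) ∧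
      (∀ l : List I, l.length ≤ 2 → CSMPos A s π K (l.map s).prod) ∧
      ∀ l₁ l₂ : List I, (∀ i ∈ l₁, ∀ j ∈ l₂, A i j = 0) → CSMPos A s π K (l₁.map s).prod →
        CSMPos A s π K (l₂.map s).prod → CSMPos A s π K ((l₁.map s).prod * (l₂.map s).prod) := by
  classical
  letI : Fintype (H28T.WG P) := Fintype.ofEquiv W (weyl b e h).toEquiv
  obtain ⟨⟨C₀, hC₀, hu⟩, hm⟩ := H28T.main b
  refine ⟨⟨fun w => borelEquiv b e hA hπ (C₀ (weyl b e h w)), ?_, fun K hK => ?_⟩, fun K hK => ?_⟩
  · refine (isCSM_conv b e hA h hπ _).mpr ?_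
    simp only [MulEquiv.apply_symm_apply, RingEquiv.symm_apply_apply]
    exact hC₀
  · have h1 := hu _ ((isCSM_conv b e hA h hπ K).mp hK)
    funext w
    rw [← h1, RingEquiv.apply_symm_apply, MulEquiv.symm_apply_apply]
  · have hK' := (isCSM_conv b e hA h hπ K).mp hK
    obtain ⟨hli, h1, h2, h3, h4⟩ := hm _ hK'
    refine ⟨fun a ha => ?_, fun f q r a hf hinj horth => ?_, fun f q r a hf => ?_,
      fun n ε f hBC hf q r a hn hn' hr => ?_, fun n ε f hn hD hf => ⟨fun m a hm1 hm2 hm3 => ?_,
      fun r hr => ?_⟩, fun l hl => ?_, fun l₁ l₂ horth hl₁ hl₂ => ?_⟩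
    · have h5 := sum_conv b e hA h hπ K a
      rw [ha, map_zero] at h5
      have h6 := Fintype.linearIndependent_iff.mp hli _ h5.symm
      intro w
      have h7 := h6 (weyl b e h w)
      rwa [MulEquiv.symm_apply_apply] at h7
    · rw [csmPos_conv b e hA h hπ, weyl_hook]
      refine h1 _ _ _ _ (straight_conv b e hA hf) (fun i hi j hj hij =>
        hinj i hi j hj (e.injective hij)) (by omega) fun i hi hi' j hj hj' => ?_
      rw [← hA]
      exact horth j i (by omega) hj hi hi'
    · rw [csmPos_conv b e hA h hπ, weyl_hook]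
      exact h2 _ _ _ _ (leafChain_conv b e hA hf) (by omega)
    · rw [csmPos_conv b e hA h hπ, weyl_hook]
      have h5 := h3 n (by omega) (ε.trans e) (by
        simp only [Equiv.trans_apply, ← hA]
        exact hBC) (q + r) a r hn (by omega) hn' hr
      rw [hookL_congr b (f := fun t => e (f t)) (by omega) fun t ht => ?_]
      · exact h5
      · show e (f t) = e (ε (H28T.bcNode n _ t))
        congr 1
        by_cases hh : t < n
        · have h6 := (hf ⟨t, hh⟩).1
          refine h6.trans (congrArg ε (Fin.ext ?_))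
          simp [H28T.bcNode, hh]
        · have h6 := (hf ⟨2 * n - 2 - t, by omega⟩).2
          have h7 : 2 * n - 2 - (2 * n - 2 - t) = t := by omega
          simp only [h7] at h6
          refine h6.trans (congrArg ε (Fin.ext ?_))
          simp [H28T.bcNode, hh]
    · have hIsD : H28T.IsD b (ε.trans e) := by
        intro i j
        rw [Equiv.trans_apply, Equiv.trans_apply, ← hA]
        exact hD i j
      have h5 := (h4 n hn (ε.trans e) hIsD).1 m a hm1 hm2 hm3
      rw [csmPos_conv b e hA h hπ, weyl_hook, hookL_congr b (g := H28T.dNode b hn (ε.trans e))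
        (by omega) fun t ht => ?_]
      · unfold H28T.hookL
        rw [List.range_zero, List.map_nil, List.append_nil]
        exact h5
      · show e (f t) = _
        unfold H28T.dNode H28T.nd
        by_cases hh : t < n
        · rw [if_pos hh]
          have h6 := (hf ⟨t, hh⟩).1
          show e (f t) = e (ε _)
          refine congrArg e (h6.trans (congrArg ε (Fin.ext ?_)))
          show t = min t (n - 1)
          omega
        · rw [if_neg hh]
          have h6 := (hf ⟨2 * n - 3 - t, by omega⟩).2 (by
            show 2 * n - 3 - t + 3 ≤ n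
            omega)
          have h7 : 2 * n - 3 - (2 * n - 3 - t) = t := by omega
          simp only [h7] at h6
          show e (f t) = e (ε _)
          refine congrArg e (h6.trans (congrArg ε (Fin.ext ?_)))
          show 2 * n - 3 - t = min (2 * n - 3 - t) (n - 1)
          omega
    · have hIsD : H28T.IsD b (ε.trans e) := by
        intro i j
        rw [Equiv.trans_apply, Equiv.trans_apply, ← hA]
        exact hD i j
      have h5 := (h4 n hn (ε.trans e) hIsD).2 r hr
      have h6 : ∀ t (ht : t < n), e (f t) = H28T.nd b hn (ε.trans e) t := by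
        intro t ht
        unfold H28T.nd
        have h6 := (hf ⟨t, ht⟩).1
        show e (f t) = e (ε _)
        refine congrArg e (h6.trans (congrArg ε (Fin.ext ?_)))
        show t = min t (n - 1)
        omega
      rw [csmPos_conv b e hA h hπ]
      have h7 : weyl b e h (((List.range r).map fun t => s (f (n - 2 - r + t))).prod *
          s (f (n - 1))) = H28T.wp b (H28T.nd b hn (ε.trans e) (n - 1) ::
            (List.range r).map fun t => H28T.nd b hn (ε.trans e) (n - 3 - t)) := by
        have h8 : ((List.range r).map fun t => s (f (n - 2 - r + t))) =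
            (((List.range r).map fun t => f (n - 2 - r + t)).map s) := by
          rw [List.map_map]
          rfl
        rw [map_mul, h8, weyl_prod, weyl_s, h6 (n - 1) (by omega), List.map_map,
          reverse_map_range]
        show _ = H28T.wp b _ * _
        congr 2
        refine List.map_congr_left fun t ht => ?_
        rw [List.mem_range] at ht
        show e (f (n - 2 - r + (r - 1 - t))) = _
        rw [h6 _ (by omega)]
        congr 1
        omega
      rw [h7]
      exact h5
    · rw [csmPos_conv b e hA h hπ]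
      exact H28T.csmPos_le_two b _ hK' _ ((inv_le b e h rfl).trans hl)
    · rw [csmPos_conv b e hA h hπ, weyl_prod] at hl₁ hl₂
      rw [csmPos_conv b e hA h hπ, map_mul, weyl_prod, weyl_prod]
      refine H28T.csmPos_mul b _ _ _ (fun k hk j hj => ?_) hl₁ hl₂
      rw [List.mem_reverse, List.mem_map] at hk hj
      obtain ⟨k, hk, rfl⟩ := hk
      obtain ⟨j, hj, rfl⟩ := hj
      rw [← hA]
      exact horth k hk j hj

end Pool.Agent.Helper13.HTD
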