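import Pool.Agent.Helper13.HTD.Main
import Pool.Agent.Helper28.CS3.Par
import Pool.Agent.Helper28.CS3.Ex

/-!
Parity and degree of the coefficients, for the definitions of `HTD.Defs`.
-/

namespace Pool.Agent.Helper13.HTD

open MvPolynomial

variable {ι M N : Type} [Fintype ι] [AddCommGroup M] [Module ℚ M] [AddCommGroup N] [Module ℚ N]
  {P : RootPairing ι ℚ M N} (b : P.Base) [P.IsRootSystem] [P.IsCrystallographic] [P.IsReduced]
  {I : Type} [Fintype I] [DecidableEq I] (e : I ≃ b.support) {A : I → I → ℚ}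
  {W : Type} [Group W] {φ : W →* Equiv.Perm ι} {s : I → W}

theorem exists_schub (hA : ∀ i j, A i j = P.pairing (e i) (e j)) (h : IsWeyl b e φ s) (v : W) :
    ∃ F, IsSchub A s v F := by
  obtain ⟨F, hF⟩ := H28T.exists_isSchub b (weyl b e h v)
  obtain ⟨F, rfl⟩ := (ren b e).surjective F
  exact ⟨F, (isSchub_conv b e hA h v F).mpr hF⟩

theorem par [Fintype W] (hA : ∀ i j, A i j = P.pairing (e i) (e j)) (h : IsWeyl b e φ s)
    {H : Type} [CommRing H] {π : MvPolynomial I ℚ →+* H} (hπ : IsBorel A π) (K : W → H)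
    (hK : IsCSM A s π K) (u v : W) (F : MvPolynomial I ℚ) (a : W → ℚ) (hF : IsSchub A s v F)
    (ha : π F * K u = ∑ w, π (C (a w)) * K w) (w : W) (lu lv lw : List I) (hu : Red s u lu)
    (hv : Red s v lv) (hw : Red s w lw) :
    (a w ≠ 0 → lu.length + lv.length ≤ lw.length ∧ Even (lu.length + lv.length + lw.length)) ∧
    (lw.length ≤ lu.length + 4 → (lw.length = lu.length + lv.length → lv.length ≤ 2) →
      0 ≤ a w) := by
  classical
  letI : Fintype (H28T.WG P) := Fintype.ofEquiv W (weyl b e h).toEquiv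
  have hK' := (isCSM_conv b e hA h hπ K).mp hK
  have hF' := (isSchub_conv b e hA h v F).mp hF
  have ha' : H28T.cl b (ren b e F) *
      (fun w => (borelEquiv b e hA hπ).symm (K ((weyl b e h).symm w))) (weyl b e h u) =
      ∑ w : H28T.WG P, a ((weyl b e h).symm w) •
        (fun w => (borelEquiv b e hA hπ).symm (K ((weyl b e h).symm w))) w := by
    have h1 := congrArg (borelEquiv b e hA hπ).symm ha
    rw [sum_conv b e hA h hπ K a, map_mul, ← borelEquiv_cl b e hA hπ,
      RingEquiv.symm_apply_apply] at h1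
    show H28T.cl b (ren b e F) *
      (borelEquiv b e hA hπ).symm (K ((weyl b e h).symm (weyl b e h u))) = _
    rw [MulEquiv.symm_apply_apply]
    exact h1
  rw [(red_iff b e h u lu).mp hu |>.2, (red_iff b e h v lv).mp hv |>.2,
    (red_iff b e h w lw).mp hw |>.2]
  have e1 : a w = (fun w => a ((weyl b e h).symm w)) (weyl b e h w) := by
    show a w = a ((weyl b e h).symm (weyl b e h w))
    rw [MulEquiv.symm_apply_apply]
  rw [e1]
  refine ⟨fun h0 => ?_, fun h4 h5 => ?_⟩
  · obtain ⟨h1, h2⟩ := H28T.coeff_degree b _ hK' (weyl b e h v) (ren b e F) hF' (weyl b e h u)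
      (fun w => a ((weyl b e h).symm w)) ha' (weyl b e h w) h0
    exact ⟨h1, Nat.even_iff.2 h2⟩
  · exact H28T.coeff_nonneg_four b _ hK' (weyl b e h v) (ren b e F) hF' (weyl b e h u)
      (fun w => a ((weyl b e h).symm w)) ha' (weyl b e h w) h4 h5

end Pool.Agent.Helper13.HTD
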